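import Pool.Agent.H54.WB.TargetsC
import Pool.Agent.H1.WB.TYC

/-! Row TYF of wdb_modules (MP_64fb07_lc): the number of the types, colours in `Fin k`. -/

set_option autoImplicit false

namespace Pool.Agent.H95.WB

open Pool.Agent.H54.WB Pool.Agent.H69.VR Pool.Agent.H1.WB

theorem pf_TYF (hDDU : T_DDU) : T_TYF := by
  intro Ψ
  show Bd (fun k => Nat.card (Ψ.T (Fin k)))
  induction Ψ with
  | un i x => exact (Bd.const 2).mono fun k => (card_prop).le
  | bi i x y =>
    have h1 : Bd (fun k => k + 1) := Bd.add hDDU Bd.idk (Bd.const 1)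
    refine (Bd.mul hDDU (Bd.const 2) (Bd.mul hDDU h1 h1)).mono fun k => ?_
    show Nat.card (Prop × Option (Fin k) × Option (Fin k)) ≤ _
    rw [Nat.card_prod, Nat.card_prod, card_prop, Finite.card_option, Nat.card_fin]
  | eq x y => exact (Bd.const 2).mono fun k => (card_prop).le
  | mem x X => exact (Bd.const 2).mono fun k => (card_prop).le
  | mod X q r =>
    refine (Bd.const (q + 1)).mono fun k => ?_
    show Nat.card (ZMod (q + 1)) ≤ q + 1
    rw [Nat.card_zmod]
  | neg φ ih => exact ih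
  | and φ ψ ih ih' =>
    refine (Bd.mul hDDU ih ih').mono fun k => ?_
    show Nat.card (φ.T (Fin k) × ψ.T (Fin k)) ≤ _
    rw [Nat.card_prod]
  | ex x φ ih =>
    refine (Bd.mul hDDU (Bd.pow ih) ih).mono fun k => ?_
    have := MS.finT (Fin k) φ
    show Nat.card (Set (φ.T (Fin k)) × φ.T (Fin k)) ≤ _
    rw [Nat.card_prod, card_set']
  | exS X φ ih =>
    refine (Bd.pow ih).mono fun k => ?_
    have := MS.finT (Fin k) φ
    show Nat.card (Set (φ.T (Fin k))) ≤ _
    rw [card_set']

end Pool.Agent.H95.WB
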